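import Pool.Agent.Helper30.EL.St

/-!
# Project EL, module KSI: one `q`
-/

set_option autoImplicit false

noncomputable section

namespace Pool.Agent.Helper89.EL

open Finset Filter Topology ArithmeticFunction
open Pool.Agent.Helper9.TW (gm Qs fm StC9)
open Pool.Agent.Helper93.KS (bq Pq SW bmq idq ejq mg Gb Vq AD UQ LQ)
open Pool.Agent.Helper30.EL

private lemma box_exists (a : ℕ) (ω : ℝ) (p : ℕ) (j0 J : ℕ) (h0 : j0 ≤ J)
    (hlo : (a : ℝ) ^ ((j0 : ℝ) * ω) ≤ (p : ℝ)) (hhi : (p : ℝ) < (a : ℝ) ^ ((J : ℝ) * ω)) :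
    ∃ i ∈ Ico j0 J, (a : ℝ) ^ ((i : ℝ) * ω) ≤ (p : ℝ) ∧ (p : ℝ) < (a : ℝ) ^ (((i : ℝ) + 1) * ω) := by
  induction J, h0 using Nat.le_induction with
  | base => exact absurd hhi (not_lt.mpr hlo)
  | succ J hJ ih =>
    by_cases h : (p : ℝ) < (a : ℝ) ^ ((J : ℝ) * ω)
    · obtain ⟨i, hi, h1, h2⟩ := ih h
      exact ⟨i, by simp only [mem_Ico] at hi ⊢; omega, h1, h2⟩
    · refine ⟨J, by simp only [mem_Ico]; omega, not_lt.mp h, ?_⟩
      have : ((J + 1 : ℕ) : ℝ) = (J : ℝ) + 1 := by push_cast; ring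
      rwa [this] at hhi

private lemma sigma_sq (p : ℕ) (hp : p.Prime) : sigma 1 (p ^ 2) = p ^ 2 + p + 1 := by
  rw [sigma_one_apply_prime_pow hp]
  simp [Finset.sum_range_succ]
  ring

private lemma sigma_k (s q : ℕ) (hs : s.Prime) (hq : q.Prime) (hsq : s < q) :
    sigma 1 ((s * q) ^ 2) = (s ^ 2 + s + 1) * (q ^ 2 + q + 1) := by
  have hc : Nat.Coprime (s ^ 2) (q ^ 2) :=
    Nat.Coprime.pow 2 2 ((Nat.coprime_primes hs hq).mpr (by omega))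
  rw [mul_pow, isMultiplicative_sigma.map_mul_of_coprime hc, sigma_sq s hs, sigma_sq q hq]

private lemma seven_le (p v : ℕ) (hp : p.Prime) (hv : p ∣ v) (hc : Nat.Coprime v 30) : 7 ≤ p := by
  by_contra h
  have h1 : ¬ p ∣ 30 := fun h2 => hp.one_lt.ne' (Nat.dvd_one.mp (by
    have := Nat.dvd_gcd hv h2
    rwa [hc] at this))
  have h2 := hp.two_le
  have h3 : p < 7 := by omega
  interval_cases p
  · exact h1 (by norm_num)
  · exact h1 (by norm_num)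
  · revert hp; norm_num
  · exact h1 (by norm_num)
  · revert hp; norm_num

theorem hKSI (hT : StPTE) (_h3 : StB30) : StKSI := by
  classical
  have e1 : ∀ᶠ a : ℕ in atTop, (12 : ℝ) ≤ (a : ℝ) ^ (1 / 1000 : ℝ) :=
    ((tendsto_rpow_atTop (by norm_num : (0 : ℝ) < 1 / 1000)).comp tendsto_natCast_atTop_atTop).eventually_ge_atTop 12
  have e2 : ∀ᶠ a : ℕ in atTop, (4 : ℝ) ≤ (a : ℝ) ^ (1 / 4 : ℝ) :=
    ((tendsto_rpow_atTop (by norm_num : (0 : ℝ) < 1 / 4)).comp tendsto_natCast_atTop_atTop).eventually_ge_atTop 4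
  obtain ⟨a₀, ha₀⟩ := eventually_atTop.mp (e1.and (e2.and (eventually_ge_atTop 2)))
  refine ⟨a₀, ?_⟩
  intro u j0 a n s q b haa hn1 hn2 hu hj0 hj9 hs hq hsq hsa hcop hqb hb30 hsqf hpos
  obtain ⟨g1, g2, g3⟩ := ha₀ a haa
  set c := s ^ 2 + s + 1 with hc
  set v := vv n c q with hv
  have haR : (2 : ℝ) ≤ (a : ℝ) := by exact_mod_cast g3
  have ha0 : (0 : ℝ) < (a : ℝ) := by linarith
  have hapos : 0 < a := by omega
  have hn0 : 1 ≤ n := le_trans (Nat.one_le_pow 2 a hapos) hn1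
  have hsig : 2 * n + sigma 1 ((s * q) ^ 2) = v := by
    rw [sigma_k s q hs hq hsq, hv, vv]
  have hv1 : 1 ≤ v := by rw [hv, vv]; omega
  -- size
  have hs2 := hs.two_le
  have hq2 := hq.two_le
  have hcs : c ≤ 2 * s ^ 2 := by rw [hc]; nlinarith
  have hqs : q ^ 2 + q + 1 ≤ 2 * q ^ 2 := by nlinarith
  have hvN : v ≤ 12 * a ^ 2 := by
    have h1 : c * (q ^ 2 + q + 1) ≤ 4 * a ^ 2 := by
      calc c * (q ^ 2 + q + 1) ≤ (2 * s ^ 2) * (2 * q ^ 2) := Nat.mul_le_mul hcs hqs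
        _ = 4 * (s * q) ^ 2 := by ring
        _ ≤ 4 * a ^ 2 := Nat.mul_le_mul_left 4 (Nat.pow_le_pow_left hsa 2)
    have h2 : (a + 1) ^ 2 ≤ 4 * a ^ 2 := by nlinarith
    rw [hv, vv]
    omega
  have hvR : (v : ℝ) ≤ (a : ℝ) ^ (2 + 1 / 1000 : ℝ) := by
    have h1 : (v : ℝ) ≤ 12 * (a : ℝ) ^ 2 := by exact_mod_cast hvN
    rw [Real.rpow_add ha0]
    have h2 : (a : ℝ) ^ (2 : ℝ) = (a : ℝ) ^ 2 := by norm_cast
    rw [h2]
    have h3 : (0 : ℝ) < (a : ℝ) ^ 2 := by positivity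
    nlinarith
  -- the factors of the product
  have hq0 : q0 a ((j0 : ℝ) * (1 / (100 * u))) n c q = 1 := by
    by_contra h
    have : q0 a ((j0 : ℝ) * (1 / (100 * u))) n c q = 0 := by
      unfold q0 at h ⊢
      split_ifs at h ⊢ with h4
      · exact absurd rfl h
      · rfl
    rw [this] at hpos
    simp at hpos
  have hid : idq a (1 / (100 * u)) j0 (9 * u) v = 1 := by
    by_contra h
    have : idq a (1 / (100 * u)) j0 (9 * u) v = 0 := by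
      unfold idq at h ⊢
      split_ifs at h ⊢ with h4
      · rfl
      · exact absurd rfl h
    rw [this] at hpos
    simp at hpos
  rw [hq0, hid] at hpos
  have hsum : ∑ i ∈ Ico (9 * u) (46 * u), 61 / 100 * (1 - (i : ℝ) / (46 * u)) *
      (ejq a (1 / (100 * u)) i v : ℝ) < 1 := by linarith
  have hQ : ∀ p ∈ Qs a ((j0 : ℝ) * (1 / (100 * u))), ¬ p ∣ v := by
    by_contra h
    unfold q0 at hq0
    rw [if_neg h] at hq0
    norm_num at hq0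
  have hP : ¬ ∃ p ∈ Pq a (1 / (100 * u)) j0 (9 * u), p ∣ v := by
    intro h
    unfold idq at hid
    rw [if_pos h] at hid
    norm_num at hid
  have hcop30 : Nat.Coprime v 30 := hb30 q hqb
  have huR : (0 : ℝ) < (u : ℝ) := by exact_mod_cast hu
  have h9 : ((9 * u : ℕ) : ℝ) * (1 / (100 * (u : ℝ))) = 9 / 100 := by
    push_cast
    field_simp
  have hbig : ∀ p : ℕ, p.Prime → p ∣ v → (a : ℝ) ^ (9 / 100 : ℝ) ≤ (p : ℝ) := by
    intro p hp hpv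
    by_contra hlt
    rw [not_le] at hlt
    have h7 := seven_le p v hp hpv hcop30
    have hlo : (a : ℝ) ^ ((j0 : ℝ) * (1 / (100 * (u : ℝ)))) ≤ (p : ℝ) := by
      by_contra h
      rw [not_le] at h
      refine hQ p ?_ hpv
      unfold Qs
      rw [mem_filter, mem_Icc]
      exact ⟨⟨h7, Nat.le_floor h.le⟩, hp, h⟩
    have hhi : (p : ℝ) < (a : ℝ) ^ (((9 * u : ℕ) : ℝ) * (1 / (100 * (u : ℝ)))) := by
      rw [h9]; exact hlt
    obtain ⟨i, hi, h1, h2⟩ := box_exists a (1 / (100 * (u : ℝ))) p j0 (9 * u) hj9 hlo hhi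
    refine hP ⟨p, ?_, hpv⟩
    unfold Pq
    rw [mem_biUnion]
    refine ⟨i, hi, ?_⟩
    unfold bq
    rw [mem_filter, mem_range]
    exact ⟨Nat.lt_ceil.mpr h2, hp, h1⟩
  have hsq2 : ∀ p : ℕ, p.Prime → (p : ℝ) ≤ (a : ℝ) ^ (9 / 10 : ℝ) → ¬ p ^ 2 ∣ v := by
    intro p hp hp9 hdv
    exact hsqf p hp hp9 (hbig p hp ((dvd_pow_self p two_ne_zero).trans hdv)) hdv
  have hPTE := hT u a v hu g3 hv1 hvR hbig hsq2 hsum
  have hn25 : (n : ℝ) ^ (1 / 25 : ℝ) ≤ (a : ℝ) ^ (9 / 100 : ℝ) := by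
    have h1 : (n : ℝ) ≤ 4 * (a : ℝ) ^ 2 := by
      have h2 : n ≤ 4 * a ^ 2 := by nlinarith
      exact_mod_cast h2
    have h2 : (n : ℝ) ≤ (a : ℝ) ^ (9 / 4 : ℝ) := by
      have h3 : (a : ℝ) ^ (9 / 4 : ℝ) = (a : ℝ) ^ 2 * (a : ℝ) ^ (1 / 4 : ℝ) := by
        rw [show (9 / 4 : ℝ) = 2 + 1 / 4 by norm_num, Real.rpow_add ha0]
        norm_cast
      rw [h3]
      have h4 : (0 : ℝ) < (a : ℝ) ^ 2 := by positivity
      nlinarith
    calc (n : ℝ) ^ (1 / 25 : ℝ) ≤ ((a : ℝ) ^ (9 / 4 : ℝ)) ^ (1 / 25 : ℝ) :=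
          Real.rpow_le_rpow (by positivity) h2 (by norm_num)
      _ = (a : ℝ) ^ (9 / 100 : ℝ) := by
          rw [← Real.rpow_mul ha0.le]
          norm_num
  unfold kk
  rw [mem_filter, mem_Ico, hsig]
  refine ⟨⟨?_, ?_⟩, hPTE, fun p hp hpv => hn25.trans (hbig p hp hpv)⟩
  · exact Nat.one_le_pow 2 _ (Nat.mul_pos hs.pos hq.pos)
  · have h1 : (s * q) ^ 2 ≤ a ^ 2 := Nat.pow_le_pow_left hsa 2
    omega

end Pool.Agent.Helper89.EL
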